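import Mathlib

set_option autoImplicit false

namespace Pool.Agent.H.MP_7f3d09_an

open Filter Topology Finset
open scoped Nat

/-- Bessel values `I_n(2)`. -/
noncomputable def G (n : ℕ) : ℝ := ∑' j : ℕ, 1 / ((j ! : ℝ) * (j + n)!)

theorem G_le_term (n j : ℕ) : 1 / ((j ! : ℝ) * (j + n)!) ≤ 1 / (n ! : ℝ) * (1 ^ j / j !) := by
  have h : (n ! : ℝ) ≤ (j + n)! := by exact_mod_cast Nat.factorial_le (Nat.le_add_left n j)
  have h1 : (0 : ℝ) < n ! := by positivity
  have h2 : (0 : ℝ) < j ! := by positivity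
  rw [one_pow, div_mul_div_comm, one_mul, mul_comm (n ! : ℝ)]
  exact one_div_le_one_div_of_le (by positivity) (by gcongr)

theorem G_sum (n : ℕ) : Summable fun j : ℕ => 1 / ((j ! : ℝ) * (j + n)!) :=
  .of_nonneg_of_le (fun _ => by positivity) (G_le_term n)
    ((Real.summable_pow_div_factorial 1).mul_left _)

theorem G_le (n : ℕ) : G n ≤ 3 / n ! := by
  have e : ∑' j : ℕ, (1 : ℝ) ^ j / j ! = Real.exp 1 := by
    rw [Real.exp_eq_exp_ℝ, NormedSpace.exp_eq_tsum_div]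
  have := (G_sum n).tsum_le_tsum (G_le_term n) ((Real.summable_pow_div_factorial 1).mul_left _)
  rw [tsum_mul_left, e] at this
  have h3 : Real.exp 1 ≤ 3 := Real.exp_one_lt_d9.le.trans (by norm_num)
  have h1 : (0 : ℝ) < n ! := by positivity
  calc G n ≤ 1 / (n ! : ℝ) * Real.exp 1 := this
    _ ≤ 1 / (n ! : ℝ) * 3 := by gcongr
    _ = _ := by ring

theorem le_G (n : ℕ) : 1 / (n ! : ℝ) ≤ G n := by
  have := (G_sum n).le_tsum 0 fun _ _ => by positivity
  rwa [Nat.factorial_zero, Nat.cast_one, one_mul, zero_add] at this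

theorem G_pos (n : ℕ) : 0 < G n := lt_of_lt_of_le (by positivity) (le_G n)

theorem G_rec (n : ℕ) : G n = (n + 1) * G (n + 1) + G (n + 2) := by
  have s1 := G_sum (n + 1)
  have s2 : Summable fun j : ℕ => (j : ℝ) / ((j ! : ℝ) * (j + (n + 1))!) := by
    rw [← summable_nat_add_iff 1]
    refine (G_sum (n + 2)).congr fun j => ?_
    rw [show j + 1 + (n + 1) = j + (n + 2) by ring, Nat.factorial_succ j]
    push_cast
    field_simp
  have e2 : G (n + 2) = ∑' j : ℕ, (j : ℝ) / ((j ! : ℝ) * (j + (n + 1))!) := by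
    rw [s2.tsum_eq_zero_add, G]
    simp only [Nat.cast_zero, zero_div, zero_add]
    refine tsum_congr fun j => ?_
    rw [show j + 1 + (n + 1) = j + (n + 2) by ring, Nat.factorial_succ j]
    push_cast
    field_simp
  rw [e2, G, G, ← tsum_mul_left, ← (s1.mul_left _).tsum_add s2]
  refine tsum_congr fun j => ?_
  rw [show j + (n + 1) = j + n + 1 by ring, Nat.factorial_succ (j + n)]
  push_cast
  field_simp
  ring

/-- The clock of the slow Euclidean algorithm. -/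
def S : ℕ → ℕ × ℕ
  | 0 => (0, 0)
  | k + 1 => if (S k).2 < (S k).1 then ((S k).1, (S k).2 + 1) else ((S k).1 + 1, 0)

theorem S_inv (k : ℕ) : (S k).2 ≤ (S k).1 ∧ 2 * k = (S k).1 * ((S k).1 + 1) + 2 * (S k).2 := by
  induction k with
  | zero => simp [S]
  | succ k ih =>
    obtain ⟨h1, h2⟩ := ih
    rw [S]
    split_ifs with h
    · exact ⟨h, by simp only; omega⟩
    · have : (S k).2 = (S k).1 := by omega
      refine ⟨Nat.zero_le _, ?_⟩
      simp only
      rw [this] at h2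
      nlinarith

noncomputable def x (k : ℕ) : ℝ := G (S k).1 - ((S k).2 + 1) * G ((S k).1 + 1)

noncomputable def y (k : ℕ) : ℝ := G ((S k).1 + 1)

theorem y_pos (k : ℕ) : 0 < y k := G_pos _

theorem x_ge (k : ℕ) : G ((S k).1 + 2) ≤ x k := by
  have h : ((S k).2 : ℝ) ≤ (S k).1 := by exact_mod_cast (S_inv k).1
  have := G_rec (S k).1
  have := G_pos ((S k).1 + 1)
  rw [x]
  nlinarith

theorem x_pos (k : ℕ) : 0 < x k := (G_pos _).trans_le (x_ge k)

theorem step (k : ℕ) :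
    (x k = x (k + 1) + y (k + 1) ∧ y k = y (k + 1) ∧ y k + G ((S k).1 + 2) ≤ x k) ∨
      (y k = x (k + 1) + y (k + 1) ∧ x k = y (k + 1) ∧ x k + G ((S k).1 + 2) ≤ y k) := by
  have hr := G_rec (S k).1
  have hp := G_pos ((S k).1 + 1)
  by_cases h : (S k).2 < (S k).1
  · left
    have e : S (k + 1) = ((S k).1, (S k).2 + 1) := by rw [S, if_pos h]
    have h' : ((S k).2 : ℝ) + 1 ≤ (S k).1 := by exact_mod_cast h
    simp only [x, y, e]
    push_cast
    refine ⟨by ring, trivial, by nlinarith⟩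
  · right
    have e : S (k + 1) = ((S k).1 + 1, 0) := by rw [S, if_neg h]
    have h' : (S k).2 = (S k).1 := by have := (S_inv k).1; omega
    have hr2 := G_rec ((S k).1 + 1)
    have hp2 := G_pos ((S k).1 + 1 + 1)
    have hp3 := G_pos ((S k).1 + 1 + 2)
    have : (0 : ℝ) ≤ (S k).1 := by positivity
    simp only [x, y, e, h']
    push_cast at hr2 ⊢
    refine ⟨by ring, by linarith, ?_⟩
    change _ + G ((S k).1 + 1 + 1) ≤ _
    change _ = _ + G ((S k).1 + 1 + 1) at hr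
    nlinarith

noncomputable def b (k : ℕ) : ℝ := (x k ^ 2 + x k * y k + y k ^ 2) / 2

theorem b_pos (k : ℕ) : 0 < b k := by
  have := x_pos k
  have := y_pos k
  rw [b]
  positivity

theorem fact_ge (n : ℕ) : (n + 1) ^ 4 ≤ 43 * n ! := by
  rcases lt_or_ge n 4 with h | h
  · interval_cases n <;> simp [Nat.factorial]
  induction n, h using Nat.le_induction with
  | base => simp [Nat.factorial]
  | succ n hn ih =>
    rw [Nat.factorial_succ]
    have : (n + 1 + 1) ^ 4 ≤ (n + 1) * (n + 1) ^ 4 := by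
      obtain ⟨m, rfl⟩ := Nat.exists_eq_add_of_le hn
      ring_nf
      nlinarith [Nat.zero_le (m ^ 5), Nat.zero_le (m ^ 4), Nat.zero_le (m ^ 3), Nat.zero_le (m ^ 2)]
    nlinarith

theorem b_le (k : ℕ) : b k ≤ 30000 / ((k : ℝ) + 1) ^ 4 := by
  obtain ⟨h1, h2⟩ := S_inv k
  have hr := G_rec (S k).1
  have hp := G_pos ((S k).1 + 1)
  have hp2 := G_pos ((S k).1 + 2)
  have h0 : (0 : ℝ) ≤ (S k).1 := by positivity
  have h0' : (0 : ℝ) ≤ (S k).2 := by positivity
  have hx : x k ≤ G (S k).1 := by rw [x]; nlinarith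
  have hy : y k ≤ G (S k).1 := by rw [y]; nlinarith
  have hk : k + 1 ≤ ((S k).1 + 1) ^ 2 := by nlinarith
  have hf : ((k : ℝ) + 1) ^ 2 ≤ 43 * ((S k).1)! := by
    have : (k + 1) ^ 2 ≤ 43 * ((S k).1)! :=
      (Nat.pow_le_pow_left hk 2).trans (by rw [← pow_mul]; exact fact_ge _)
    exact_mod_cast this
  have hG : G (S k).1 ≤ 129 / ((k : ℝ) + 1) ^ 2 := by
    refine (G_le _).trans ?_
    rw [div_le_div_iff₀ (by positivity) (by positivity)]
    linarith
  have := x_pos k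
  have := y_pos k
  have hx' := hx.trans hG
  have hy' := hy.trans hG
  calc b k ≤ ((129 / ((k : ℝ) + 1) ^ 2) ^ 2 + 129 / ((k : ℝ) + 1) ^ 2 * (129 / ((k : ℝ) + 1) ^ 2) +
        (129 / ((k : ℝ) + 1) ^ 2) ^ 2) / 2 := by rw [b]; gcongr
    _ = (49923 / 2) / ((k : ℝ) + 1) ^ 4 := by field_simp; ring
    _ ≤ _ := by gcongr; norm_num

theorem sq_sum : Summable fun k : ℕ => 1 / ((k : ℝ) + 1) ^ 2 := by
  have := (summable_nat_add_iff 1).2 (Real.summable_one_div_nat_pow.2 one_lt_two)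
  simpa using this

theorem b_add (j m : ℕ) : b (j + m) ≤ 1 / ((j : ℝ) + 1) ^ 2 * (30000 * (1 / ((m : ℝ) + 1) ^ 2)) := by
  refine (b_le _).trans ?_
  have h : ((j : ℝ) + 1) * (m + 1) ≤ (j + m + 1) ^ 2 := by
    have : (0 : ℝ) ≤ j := by positivity
    have : (0 : ℝ) ≤ m := by positivity
    nlinarith
  calc (30000 : ℝ) / (((j + m : ℕ) : ℝ) + 1) ^ 4 = 30000 / (((j : ℝ) + m + 1) ^ 2) ^ 2 := by
        push_cast; ring
    _ ≤ 30000 / (((j : ℝ) + 1) * (m + 1)) ^ 2 := by gcongr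
    _ = _ := by field_simp

theorem b_sum (m : ℕ) : Summable fun j => b (j + m) :=
  .of_nonneg_of_le (fun _ => (b_pos _).le) (fun j => b_add j m) (sq_sum.mul_right _)

/-- The tails of `b`. -/
noncomputable def a (m : ℕ) : ℝ := ∑' j, b (j + m)

theorem a_sub (m : ℕ) : a m = b m + a (m + 1) := by
  rw [a, (b_sum m).tsum_eq_zero_add, zero_add, a]
  congr 1
  exact tsum_congr fun j => by rw [add_assoc, add_comm 1]

theorem a_sum : Summable fun m => |a m| := by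
  refine .of_nonneg_of_le (fun _ => abs_nonneg _) (fun m => ?_)
    ((sq_sum.mul_left 30000).mul_left (∑' k : ℕ, 1 / ((k : ℝ) + 1) ^ 2))
  rw [a, abs_of_nonneg (tsum_nonneg fun _ => (b_pos _).le), ← tsum_mul_right]
  exact (b_sum m).tsum_le_tsum (fun j => b_add j m) (sq_sum.mul_right _)

/-- First output. -/
def F1 (u : ℕ → ℝ) (k : ℕ) : ℝ := -u k + 3 * u (k + 1) - 3 * u (k + 3) + u (k + 4)

/-- Second output. -/
def F2 (u : ℕ → ℝ) (k : ℕ) : ℝ := u k - 4 * u (k + 1) + 6 * u (k + 2) - 4 * u (k + 3) + u (k + 4)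

/-- The discriminant. -/
def D (u : ℕ → ℝ) (k : ℕ) : ℝ :=
  (-u k + 4 * u (k + 1) - 3 * u (k + 2)) * (u k - 3 * u (k + 1) + 3 * u (k + 2) - u (k + 3)) -
    (u (k + 1) - 2 * u (k + 2) + u (k + 3)) ^ 2

theorem D_sub (u : ℕ → ℝ) (k : ℕ) : D u k = D u (k + 1) + F1 u k * F2 u k := by
  simp only [D, F1, F2, add_assoc, Nat.reduceAdd]
  ring

theorem b_p (k : ℕ) : 3 * b (k + 1) - b k = x (k + 1) ^ 2 := by
  rcases step k with ⟨h1, h2, -⟩ | ⟨h1, h2, -⟩ <;> simp only [b, h1, h2] <;> ring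

theorem b_r (k : ℕ) : b k - b (k + 1) = x k * y k := by
  rcases step k with ⟨h1, h2, -⟩ | ⟨h1, h2, -⟩ <;> simp only [b, h1, h2] <;> ring

theorem b_s (k : ℕ) : b k - 2 * b (k + 1) + b (k + 2) = y (k + 1) ^ 2 := by
  have := b_p k
  have := b_r (k + 1)
  have : b (k + 1) = (x (k + 1) ^ 2 + x (k + 1) * y (k + 1) + y (k + 1) ^ 2) / 2 := rfl
  rw [show k + 2 = k + 1 + 1 from rfl]
  linarith

theorem F1_a (k : ℕ) : F1 a k = x (k + 1) ^ 2 - y (k + 2) ^ 2 := by
  rw [← b_p, show k + 2 = k + 1 + 1 from rfl, ← b_s, F1]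
  linarith [a_sub k, a_sub (k + 1), a_sub (k + 2), a_sub (k + 3)]

theorem F2_a (k : ℕ) : F2 a k = y (k + 1) ^ 2 - y (k + 2) ^ 2 := by
  rw [← b_s, show y (k + 2) = y (k + 1 + 1) from rfl, ← b_s, F2]
  linarith [a_sub k, a_sub (k + 1), a_sub (k + 2), a_sub (k + 3)]

theorem D_a : D a 0 = 0 := by
  have e1 : -a 0 + 4 * a 1 - 3 * a 2 = x 1 ^ 2 := by
    linarith [a_sub 0, a_sub 1, b_p 0]
  have e2 : a 0 - 3 * a 1 + 3 * a 2 - a 3 = y 1 ^ 2 := by
    linarith [a_sub 0, a_sub 1, a_sub 2, b_s 0]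
  have e3 : a 1 - 2 * a 2 + a 3 = x 1 * y 1 := by
    linarith [a_sub 1, a_sub 2, b_r 1]
  simp only [D, zero_add, e1, e2, e3]
  ring

theorem F_a (k : ℕ) : 0 ≤ F1 a k ∧ 0 ≤ F2 a k ∧ G ((S (k + 1)).1 + 2) ^ 2 ≤ F1 a k + F2 a k := by
  have := x_pos (k + 1)
  have := y_pos (k + 1)
  have := G_pos ((S (k + 1)).1 + 2)
  rw [F1_a, F2_a]
  rcases step (k + 1) with ⟨-, h2, h3⟩ | ⟨-, h2, h3⟩ <;> rw [← h2] <;>
    refine ⟨by nlinarith, by nlinarith, by nlinarith⟩

theorem prod_zero {u : ℕ → ℝ} (hu : Tendsto u atTop (𝓝 0)) (h0 : D u 0 = 0)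
    (h1 : ∀ k, 0 ≤ F1 u k) (h2 : ∀ k, 0 ≤ F2 u k) (k : ℕ) : F1 u k * F2 u k = 0 := by
  have an : Antitone (D u) := antitone_nat_of_succ_le fun k => by
    rw [D_sub u k]
    exact le_add_of_nonneg_right (mul_nonneg (h1 k) (h2 k))
  have t : ∀ i, Tendsto (fun k => u (k + i)) atTop (𝓝 0) := fun i =>
    hu.comp (tendsto_add_atTop_nat i)
  have tD : Tendsto (D u) atTop (𝓝 0) := by
    have := ((((hu.neg.add ((t 1).const_mul 4)).sub ((t 2).const_mul 3)).mul
      (((hu.sub ((t 1).const_mul 3)).add ((t 2).const_mul 3)).sub (t 3))).sub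
        ((((t 1).sub ((t 2).const_mul 2)).add (t 3)).pow 2))
    norm_num at this
    exact this
  have g : ∀ k, D u k = 0 := fun k =>
    le_antisymm (h0 ▸ an (Nat.zero_le k)) (an.le_of_tendsto tD k)
  linarith [D_sub u k, g k, g (k + 1)]

theorem a_tendsto : Tendsto a atTop (𝓝 0) := a_sum.of_abs.tendsto_atTop_zero

theorem uniq {u : ℕ → ℝ} (hu : Tendsto u atTop (𝓝 0)) (h0 : ∀ m < 4, u m = a m)
    (h1 : ∀ k, 0 ≤ F1 u k) (h2 : ∀ k, 0 ≤ F2 u k) : u = a := by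
  have z := prod_zero hu (by
    rw [← D_a]
    simp only [D, zero_add, h0 0, h0 1, h0 2, h0 3, Nat.ofNat_pos, Nat.one_lt_ofNat,
      Nat.reduceLT]) h1 h2
  have z' := prod_zero a_tendsto D_a (fun k => (F_a k).1) fun k => (F_a k).2.1
  funext m
  induction m using Nat.strong_induction_on with
  | _ m ih =>
    rcases lt_or_ge m 4 with h | h
    · exact h0 m h
    obtain ⟨k, rfl⟩ := Nat.exists_eq_add_of_le' h
    have e0 := ih k (by omega)
    have e1 := ih (k + 1) (by omega)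
    have e2 := ih (k + 2) (by omega)
    have e3 := ih (k + 3) (by omega)
    have f1 : F1 u k = F1 a k + (u (k + 4) - a (k + 4)) := by simp only [F1, e0, e1, e3]; ring
    have f2 : F2 u k = F2 a k + (u (k + 4) - a (k + 4)) := by simp only [F2, e0, e1, e2, e3]; ring
    have g1 := h1 k
    have g2 := h2 k
    obtain ⟨g3, g4, -⟩ := F_a k
    rcases mul_eq_zero.1 (z k) with p | p <;> rcases mul_eq_zero.1 (z' k) with q | q <;> linarith

theorem not_exp {M ρ : ℝ} (hρ : ρ < 1) (h : ∀ k, F1 a k + F2 a k ≤ M * ρ ^ k) : False := by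
  have pos : ∀ k, 0 < M * ρ ^ k := fun k =>
    ((pow_pos (G_pos _) 2).trans_le (F_a k).2.2).trans_le (h k)
  have hM : 0 < M := by simpa using pos 0
  have h0 : 0 < ρ := by
    have := pos 1
    rw [pow_one] at this
    exact (pos_iff_pos_of_mul_pos this).1 hM
  let w : ℕ → ℝ := fun n => ((n + 2)! : ℝ) ^ 2 * ρ ^ (n * (n + 1) / 2)
  have t1 : Tendsto (fun n : ℕ => ((n + 3 : ℕ) : ℝ) ^ 2 * ρ ^ (n + 3)) atTop (𝓝 0) :=
    (tendsto_pow_const_mul_const_pow_of_abs_lt_one 2 (by rwa [abs_of_pos h0])).comp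
      (tendsto_add_atTop_nat 3)
  have sw : Summable w := by
    refine summable_of_ratio_norm_eventually_le (r := 1 / 2) (by norm_num) ?_
    filter_upwards [t1.eventually (gt_mem_nhds (by positivity : 0 < ρ ^ 2 / 2))] with n hn
    have e : (n + 1) * (n + 1 + 1) / 2 = n * (n + 1) / 2 + (n + 1) := by
      rw [show (n + 1) * (n + 1 + 1) = n * (n + 1) + (n + 1) * 2 by ring, Nat.add_mul_div_right _ _ two_pos]
    have hw : 0 ≤ w n := by positivity
    have e2 : w (n + 1) = ((n + 3 : ℕ) : ℝ) ^ 2 * ρ ^ (n + 1) * w n := by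
      simp only [w, e]
      rw [show n + 1 + 2 = n + 2 + 1 by ring, Nat.factorial_succ (n + 2), pow_add]
      push_cast
      ring
    have e3 : ((n + 3 : ℕ) : ℝ) ^ 2 * ρ ^ (n + 1) ≤ 1 / 2 := by
      have : ((n + 3 : ℕ) : ℝ) ^ 2 * ρ ^ (n + 3) = ((n + 3 : ℕ) : ℝ) ^ 2 * ρ ^ (n + 1) * ρ ^ 2 := by ring
      rw [this] at hn
      have h2 : 0 < ρ ^ 2 := by positivity
      nlinarith
    rw [Real.norm_of_nonneg hw, Real.norm_of_nonneg (by positivity), e2]
    exact mul_le_mul_of_nonneg_right e3 hw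
  obtain ⟨N, hN⟩ := eventually_atTop.1
    (sw.tendsto_atTop_zero.eventually (gt_mem_nhds (by positivity : 0 < ρ / M)))
  obtain ⟨i1, i2⟩ := S_inv ((N + 1) ^ 2 + 1)
  have g := (F_a ((N + 1) ^ 2)).2.2.trans (h _)
  set k := (N + 1) ^ 2 with hk
  set n := (S (k + 1)).1
  have nN : N ≤ n := by
    by_contra! c
    nlinarith
  have hw := hN n nN
  have e : ρ ^ (k + 1) ≤ ρ ^ (n * (n + 1) / 2) :=
    pow_le_pow_of_le_one h0.le hρ.le (Nat.div_le_of_le_mul (by omega))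
  have l : 1 / ((n + 2)! : ℝ) ^ 2 ≤ G (n + 2) ^ 2 := by
    rw [← one_div_pow]
    exact pow_le_pow_left₀ (by positivity) (le_G _) 2
  have f : (0 : ℝ) < ((n + 2)! : ℝ) ^ 2 := by positivity
  have l2 := l.trans g
  rw [div_le_iff₀ f] at l2
  rw [lt_div_iff₀ hM] at hw
  simp only [w] at hw
  rw [pow_succ] at e
  have : ρ * 1 ≤ ρ * (M * ρ ^ k * ((n + 2)! : ℝ) ^ 2) := by gcongr
  nlinarith [mul_le_mul_of_nonneg_left e (mul_pos hM f).le]

theorem F_sum {u : ℕ → ℝ} (hu : Summable u) : Summable (F1 u) ∧ Summable (F2 u) ∧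
    ∑' k, (F1 u k + F2 u k) = -u 1 + 5 * u 2 - 2 * u 3 := by
  have t : ∀ i, Summable fun k => u (k + i) := fun i => (summable_nat_add_iff i).2 hu
  have s1 : Summable (F1 u) := ((hu.neg.add ((t 1).mul_left 3)).sub ((t 3).mul_left 3)).add (t 4)
  have s2 : Summable (F2 u) :=
    (((hu.sub ((t 1).mul_left 4)).add ((t 2).mul_left 6)).sub ((t 3).mul_left 4)).add (t 4)
  refine ⟨s1, s2, tendsto_nhds_unique (s1.add s2).hasSum.tendsto_sum_nat ?_⟩
  let T : ℕ → ℝ := fun k => -u (k + 1) + 5 * u (k + 2) - 2 * u (k + 3)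
  have e : ∀ n, ∑ k ∈ range n, (F1 u k + F2 u k) = T 0 - T n := fun n => by
    rw [← sum_range_sub']
    exact sum_congr rfl fun k _ => by simp only [T, F1, F2, add_assoc, Nat.reduceAdd]; ring
  have tT : Summable T := ((t 1).neg.add ((t 2).mul_left 5)).sub ((t 3).mul_left 2)
  simp only [e]
  simpa [T] using tT.tendsto_atTop_zero.const_sub (T 0)

end Pool.Agent.H.MP_7f3d09_an
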